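import Mathlib

namespace Pool.Agent.Results.MP_7a9eeb_co.Counter

open Classical in
/-- from every labeling, toggling each vertex `v` some number `t v` of times turns all labels to `0` -/
def AlwaysWinnable {n : ℕ} (G : SimpleGraph (Fin n)) (l : ℕ) : Prop :=
  ∀ x : Fin n → ZMod l, ∃ t : Fin n → ℕ, ∀ w,
    x w + ∑ v with v = w ∨ G.Adj v w, (t v : ZMod l) = 0

def r (i j : Fin 14) : Bool := (i.val < 4 && j.val < 4) || i.val / 2 == j.val / 2

def G : SimpleGraph (Fin 14) where
  Adj i j := r i j = false
  symm := ⟨by decide +kernel⟩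
  loopless := ⟨by decide⟩

instance : DecidableRel G.Adj := fun _ _ => inferInstanceAs (Decidable (_ = _))

def M (i j : Fin 14) : ℤ :=
  if i.val < 4 then (if j.val < 4 then (if i = j then 21 else -10) else 1)
  else if j.val < 4 then 1 else if i ≠ j ∧ i.val / 2 = j.val / 2 then -28 else 3

theorem hM : ∀ w u, ∑ v with v = w ∨ G.Adj v w, M v u = if u = w then 31 else 0 := by
  decide +kernel

theorem win : AlwaysWinnable G 30030 := by
  intro x
  refine ⟨fun v => (-6781 * ∑ u, (M v u : ZMod 30030) * x u).val, fun w => ?_⟩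
  simp only [ZMod.natCast_val, ZMod.cast_id', id]
  rw [← Finset.mul_sum, Finset.sum_comm]
  have : ∀ u, ∑ v with v = w ∨ G.Adj v w, (M v u : ZMod 30030) * x u =
      if u = w then 31 * x u else 0 := fun u => by
    rw [← Finset.sum_mul, ← Int.cast_sum, hM]
    split_ifs <;> simp
  have h : (6781 * 31 : ZMod 30030) = 1 := by decide +kernel
  convert_to x w + -6781 * ∑ u, (if u = w then 31 * x u else 0) = 0
  · congr 2
    exact Finset.sum_congr rfl fun u _ => by convert this u
  · rw [Finset.sum_ite_eq']
    simp only [Finset.mem_univ, if_true]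
    linear_combination (-x w) * h

theorem result : ∃ n l k : ℕ, 2 ≤ n ∧ 2 ≤ l ∧ Even n ∧ Even l ∧
    IsLeast {j : ℕ | Int.gcd ((n : ℤ) - 2 * j - 1) l = 1} k ∧ 4 ≤ k ∧
    ∃ G : SimpleGraph (Fin n), AlwaysWinnable G l ∧
      (n.choose 2 : ℤ) - (n / 2 + k) < G.edgeSet.ncard := by
  refine ⟨14, 30030, 6, by norm_num, by norm_num, by decide, by decide, ⟨by
    simp only [Set.mem_ofPred_eq]; decide, fun j hj => ?_⟩, by norm_num, G, win, ?_⟩
  · by_contra h
    push Not at h
    simp only [Set.mem_ofPred_eq] at hj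
    interval_cases j <;> revert hj <;> decide
  · have : G.edgeSet.ncard = 80 := by
      rw [← SimpleGraph.coe_edgeFinset, Set.ncard_coe_finset]
      have := G.sum_degrees_eq_twice_card_edges
      have h : ∑ v, G.degree v = 160 := by decide +kernel
      omega
    rw [this]
    decide

end Pool.Agent.Results.MP_7a9eeb_co.Counter
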